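import Pool.Agent.Helper92.Ru.GoalsR

set_option autoImplicit false

open MvPolynomial

namespace Pool.Agent.Helper40.Ru

open Pool.Agent.Helper92.Ru

section

variable {k : Type} [Field k] {σ : Type}

theorem hasse_monomial (μ e : σ →₀ ℕ) (c : k) :
    hasse μ (monomial e c) =
      monomial (e - μ) (c * ((∏ i ∈ μ.support, (e i).choose (μ i) : ℕ) : k)) := by
  have h1 : (monomial e c : MvPolynomial σ k) = c • (basisMonomials σ k) e := by
    rw [coe_basisMonomials, smul_monomial, smul_eq_mul, mul_one]
  rw [h1, map_smul]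
  unfold hasse
  rw [Module.Basis.constr_basis, smul_monomial, smul_eq_mul]

theorem coeff_pderiv' [DecidableEq σ] (h : σ) (p : MvPolynomial σ k) (a : σ →₀ ℕ) :
    coeff a (pderiv h p) = ((a h + 1 : ℕ) : k) * coeff (a + Finsupp.single h 1) p := by
  induction p using MvPolynomial.induction_on' with
  | monomial e c =>
    rw [pderiv_monomial, coeff_monomial, coeff_monomial]
    by_cases h1 : e = a + Finsupp.single h 1
    · subst h1
      rw [if_pos (by ext i; simp), if_pos rfl]
      simp [mul_comm]
    · rw [if_neg h1, mul_zero]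
      split_ifs with h2
      · have h3 : e h = 0 := by
          by_contra h3
          apply h1
          rw [← h2]
          ext i
          by_cases hi : h = i
          · subst hi
            simp; omega
          · simp [Finsupp.single_apply, hi]
        simp [h3]
      · rfl
  | add p q hp hq => rw [map_add, coeff_add, coeff_add, hp, hq, mul_add]

end

section

variable {k : Type} [Field k] {σ : Type} [Fintype σ]

theorem coeff_hasse (μ : σ →₀ ℕ) (p : MvPolynomial σ k) (a : σ →₀ ℕ) :
    coeff a (hasse μ p) = ((∏ i, (a i + μ i).choose (μ i) : ℕ) : k) * coeff (a + μ) p := by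
  classical
  induction p using MvPolynomial.induction_on' with
  | monomial e c =>
    rw [hasse_monomial, coeff_monomial, coeff_monomial]
    by_cases h1 : e = a + μ
    · subst h1
      rw [if_pos (by ext i; simp), if_pos rfl, mul_comm]
      congr 2
      refine Finset.prod_subset (Finset.subset_univ _) fun i _ hi => ?_
      rw [Finsupp.notMem_support_iff] at hi
      simp [hi]
    · rw [if_neg h1, mul_zero]
      split_ifs with h2
      · obtain ⟨i, hi⟩ : ∃ i, e i < μ i := by
          by_contra hcon
          push Not at hcon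
          apply h1
          rw [← h2]
          ext i
          have := hcon i
          simp only [Finsupp.coe_add, Finsupp.coe_tsub, Pi.add_apply, Pi.sub_apply]
          omega
        have h3 : ∏ i ∈ μ.support, (e i).choose (μ i) = 0 := by
          refine Finset.prod_eq_zero (i := i) ?_ (Nat.choose_eq_zero_of_lt hi)
          rw [Finsupp.mem_support_iff]; omega
        rw [h3]; simp
      · rfl
  | add p q hp hq => rw [map_add, coeff_add, coeff_add, hp, hq, mul_add]

theorem hasse_zero (p : MvPolynomial σ k) : hasse 0 p = p := by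
  ext a
  rw [coeff_hasse]
  simp

theorem prod_swap [DecidableEq σ] (h : σ) (A B : ℕ) (F G : σ → ℕ) (h1 : A * F h = B * G h)
    (h2 : ∀ x, x ≠ h → F x = G x) : A * ∏ i, F i = B * ∏ i, G i := by
  rw [← Finset.mul_prod_erase Finset.univ F (Finset.mem_univ h),
    ← Finset.mul_prod_erase Finset.univ G (Finset.mem_univ h), ← mul_assoc, ← mul_assoc, h1,
    Finset.prod_congr rfl (fun x hx => h2 x (Finset.ne_of_mem_erase hx))]

theorem pderiv_hasse [DecidableEq σ] (μ : σ →₀ ℕ) (p : MvPolynomial σ k) (h : σ) :
    pderiv h (hasse μ p) = ((μ h + 1 : ℕ) : k) • hasse (μ + Finsupp.single h 1) p := by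
  ext a
  rw [coeff_pderiv', coeff_smul, coeff_hasse, coeff_hasse, smul_eq_mul, ← mul_assoc, ← mul_assoc]
  have h1 : a + Finsupp.single h 1 + μ = a + (μ + Finsupp.single h 1) := by
    rw [add_assoc, add_comm (Finsupp.single h 1)]
  rw [h1]
  congr 1
  rw [← Nat.cast_mul, ← Nat.cast_mul]
  congr 1
  refine prod_swap h _ _ _ _ ?_ ?_
  · simp only [Finsupp.coe_add, Pi.add_apply, Finsupp.single_eq_same]
    have h3 := Nat.choose_succ_right_eq (a h + 1 + μ h) (μ h)
    have h4 : a h + 1 + μ h - μ h = a h + 1 := by omega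
    rw [h4] at h3
    rw [show a h + (μ h + 1) = a h + 1 + μ h by ring, mul_comm (a h + 1), ← h3]
    ring
  · intro x hne
    have hne' : x ≠ h := hne
    simp [hne']

theorem shiftP_pderiv [DecidableEq σ] (ξ : σ → k) (h : σ) (p : MvPolynomial σ k) :
    shiftP ξ (pderiv h p) = pderiv h (shiftP ξ p) := by
  unfold shiftP
  induction p using MvPolynomial.induction_on with
  | C a => simp
  | add p q hp hq => simp only [map_add, hp, hq]
  | mul_X p i hp =>
    simp only [map_mul, aeval_X, Derivation.leibniz, pderiv_X, smul_eq_mul, map_add, pderiv_C,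
      add_zero, hp]
    congr 1
    by_cases hi : i = h
    · subst hi; simp
    · simp [Pi.single_apply, Ne.symm hi]

theorem shiftP_hasse_aux [CharZero k] [DecidableEq σ] (ξ : σ → k) (n : ℕ) :
    ∀ (μ : σ →₀ ℕ), ∑ i, μ i = n → ∀ p : MvPolynomial σ k,
      shiftP ξ (hasse μ p) = hasse μ (shiftP ξ p) := by
  induction n with
  | zero =>
    intro μ hμ p
    have h0 : μ = 0 := by
      ext i
      simpa using (Finset.sum_eq_zero_iff.1 hμ) i (Finset.mem_univ i)
    rw [h0, hasse_zero, hasse_zero]
  | succ n ih =>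
    intro μ hμ p
    obtain ⟨h, hh⟩ : ∃ h, μ h ≠ 0 := by
      by_contra hcon
      push Not at hcon
      rw [Finset.sum_eq_zero (fun i _ => hcon i)] at hμ
      omega
    obtain ⟨ν, hν⟩ : ∃ ν : σ →₀ ℕ, μ = ν + Finsupp.single h 1 := by
      refine ⟨μ - Finsupp.single h 1, ?_⟩
      rw [tsub_add_cancel_of_le]
      rw [Finsupp.single_le_iff]
      omega
    have hs : ∑ i, ν i = n := by
      rw [hν] at hμ
      simp only [Finsupp.coe_add, Pi.add_apply, Finset.sum_add_distrib] at hμ
      have h1 : ∑ i, (Finsupp.single h 1 : σ →₀ ℕ) i = 1 := by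
        simp [Finsupp.single_apply]
      omega
    have h1 := congrArg (shiftP ξ) (pderiv_hasse ν p h)
    rw [shiftP_pderiv, ih ν hs p, pderiv_hasse, ← hν, map_smul] at h1
    have h2 : ((ν h + 1 : ℕ) : k) ≠ 0 := Nat.cast_ne_zero.2 (Nat.succ_ne_zero _)
    exact (smul_right_injective _ h2 h1).symm

theorem shiftP_hasse [CharZero k] [DecidableEq σ] (ξ : σ → k) (μ : σ →₀ ℕ) (p : MvPolynomial σ k) :
    shiftP ξ (hasse μ p) = hasse μ (shiftP ξ p) :=
  shiftP_hasse_aux ξ _ μ rfl p

end

theorem hasseBasic : HasseBasic := by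
  intro k _ _ σ _ _ μ p
  exact ⟨fun a => coeff_hasse μ p a, fun h => pderiv_hasse μ p h, fun ξ => shiftP_hasse ξ μ p,
    hasse_zero p⟩

end Pool.Agent.Helper40.Ru
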