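import Pool.Agent.Helper92.Ru.GoalsR

set_option autoImplicit false

open MvPolynomial

namespace Pool.Agent.Helper40.Ru

open Pool.Agent.Helper92.Ru

theorem cmb_castSucc {m : ℕ} (μ : Fin m →₀ ℕ) (ν : Fin 1 →₀ ℕ) (h : Fin m) :
    cmb μ ν (Fin.castSucc h) = μ h := by
  unfold cmb
  rw [Finsupp.add_apply, Finsupp.mapDomain_apply (Fin.castSucc_injective m),
    Finsupp.mapDomain_notin_range, add_zero]
  rintro ⟨x, hx⟩
  exact (Fin.castSucc_ne_last h) hx.symm

theorem cmb_last {m : ℕ} (μ : Fin m →₀ ℕ) (ν : Fin 1 →₀ ℕ) :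
    cmb μ ν (Fin.last m) = ν 0 := by
  unfold cmb
  rw [Finsupp.add_apply, Finsupp.mapDomain_notin_range, zero_add]
  · have : Function.Injective (fun _ : Fin 1 => Fin.last m) := fun a b _ => Subsingleton.elim _ _
    exact Finsupp.mapDomain_apply this ν 0
  · rintro ⟨x, hx⟩
    exact (Fin.castSucc_ne_last x) hx

theorem rothAlg (hGW : GenWron) (hDec : Decomp) (hWF : WronFact) (hWD : WronDeg)
    (hDH : DetHeight) (hDI : DetIndex) (hIM : IndMul) (hPM : PHMul) : RothAlg := by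
  intro k _ _ m r R ξ p θ ω hp hr hdeg hrω hω hind
  obtain ⟨s, f, g, hs1, hs2, hf, hg, hfd, hgd, hpe⟩ := hDec k m p hp
  obtain ⟨μ, hμ, hU⟩ := hGW k (Fin m) s f hf
  obtain ⟨ν, hν, hV⟩ := hGW k (Fin 1) s g hg
  have hW := hWF k m s f g μ ν
  rw [← hpe] at hW
  set U : MvPolynomial (Fin m) k := (Matrix.of (fun i j => hasse (μ i) (f j))).det with hUdef
  set V : MvPolynomial (Fin 1) k := (Matrix.of (fun i j => hasse (ν i) (g j))).det with hVdef
  have hrl : (0:ℝ) < r (Fin.last m) := by exact_mod_cast (hr (Fin.last m)).1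
  have hsr : s ≤ r (Fin.last m) + 1 := hs2.trans (Nat.add_le_add_right (hdeg _) 1)
  have hR1 : 1 ≤ R := (hr (Fin.last m)).1.trans (hr (Fin.last m)).2
  have hsR : s ≤ R + 1 := hsr.trans (Nat.add_le_add_right (hr _).2 1)
  have hcond : ∀ i j : Fin s, ∑ h, (cmb (μ i) (ν j) h : ℝ) / (r h : ℝ) ≤
      ω + (j : ℝ) / (r (Fin.last m) : ℝ) := by
    intro i j
    rw [Fin.sum_univ_castSucc, cmb_last]
    simp only [cmb_castSucc]
    have h1 : ∑ h : Fin m, (μ i h : ℝ) / (r (Fin.castSucc h) : ℝ) ≤ ω := by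
      have h2 : ∑ h : Fin m, (μ i h : ℝ) / (r (Fin.castSucc h) : ℝ) ≤
          ∑ h : Fin m, (μ i h : ℝ) * (ω / r (Fin.last m)) := by
        refine Finset.sum_le_sum fun h _ => ?_
        rw [div_eq_mul_one_div]
        refine mul_le_mul_of_nonneg_left ?_ (Nat.cast_nonneg _)
        have hrh : (0:ℝ) < r (Fin.castSucc h) := by exact_mod_cast (hr (Fin.castSucc h)).1
        rw [div_le_div_iff₀ hrh hrl, one_mul]
        exact hrω h
      rw [← Finset.sum_mul] at h2
      refine h2.trans ?_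
      have h3 : (∑ h : Fin m, (μ i h : ℝ)) ≤ r (Fin.last m) := by
        have h4 : ∑ h : Fin m, μ i h ≤ r (Fin.last m) := by
          have h5 := hμ i
          have h6 := i.2
          omega
        exact_mod_cast h4
      calc (∑ h : Fin m, (μ i h : ℝ)) * (ω / r (Fin.last m))
          ≤ r (Fin.last m) * (ω / r (Fin.last m)) :=
            mul_le_mul_of_nonneg_right h3 (div_nonneg hω hrl.le)
        _ = ω := by field_simp
    have h2 : (ν j 0 : ℝ) / (r (Fin.last m) : ℝ) ≤ (j : ℝ) / (r (Fin.last m) : ℝ) := by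
      refine div_le_div_of_nonneg_right ?_ hrl.le
      have h3 := hν j
      rw [Fin.sum_univ_one] at h3
      exact_mod_cast h3
    linarith
  have hDI' := hDI k (Fin (m + 1)) s r ξ θ (fun j => ω + (j : ℝ) / (r (Fin.last m) : ℝ)) p
    (fun i j => cmb (μ i) (ν j)) hind hcond
  have hDH' := hDH k (Fin (m + 1)) s R p (fun i j => cmb (μ i) (ν j)) hp hR1 hsR
    (fun h => (hdeg h).trans (hr h).2)
  rw [hW] at hDI' hDH'
  rw [hPM k m U V hU hV] at hDH'
  obtain ⟨a, b, ha, hb, hab, hIU, hIV⟩ := hIM k m r ξ _ U V hU hV hDI'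
  refine ⟨s, U, V, hs1, hsr, hU, hV, ?_, ?_, ?_, a, b, ha, hb, ?_, hIU, hIV⟩
  · intro h
    exact hWD k (Fin m) s f μ h _ (fun j => (hfd j h).trans (hdeg _))
  · exact hWD k (Fin 1) s g ν 0 _ (fun j => (hgd j).trans (hdeg _))
  · have hUpos : 0 < PH U := Height.mulHeight_pos _
    have hVpos : 0 < PH V := Height.mulHeight_pos _
    have hppos : 0 < PH p := Height.mulHeight_pos _
    rw [← Real.log_mul hUpos.ne' hVpos.ne']
    have h1 := Real.log_le_log (mul_pos hUpos hVpos) hDH'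
    rw [Real.log_mul (x := 2 ^ ((2 * Fintype.card (Fin (m + 1)) + 1) * R * s *
      Module.finrank ℚ k)) (by positivity) (by positivity), Real.log_pow, Real.log_pow,
      Fintype.card_fin] at h1
    refine h1.trans (le_of_eq ?_)
    push_cast
    ring
  · refine le_trans (le_of_eq ?_) hab
    refine Finset.sum_congr rfl fun j _ => ?_
    rw [sub_add_eq_sub_sub]

end Pool.Agent.Helper40.Ru
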